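import Pool.Agent.N36.LC.Main

set_option autoImplicit false

/-!
# Every odd prime is the order of a torsion element of `B_3(A_p(ℤ))`

`A_n(ℤ)` is the free associative unital ring on `n` generators, `L_1 = A_n(ℤ)`,
`L_{k+1} = [A_n(ℤ), L_k]` and `B_k = L_k / L_{k+1}`. We show that `B_3(A_n(ℤ))` contains elements of
order `p` for every odd prime `p ≤ n`. So infinitely many primes occur as torsion.

Idea. Let `G : A_p(ℤ) → Λ[X_1, …, X_p]`, `x_i ↦ X_i (1 + ξ_i)`, with `Λ` the exterior algebra over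
`ℤ` on `ξ_1, …, ξ_p`, and let `∫ g` be the coefficient of `X_1^p ⋯ X_p^p ξ_1 ⋯ ξ_p`. The functional
`[u, x_i] ↦ ∫ G(u) X_i ξ_i` is well defined modulo `p ^ 2` on `[A, A]`: a cycle `∑ u_i ⊗ x_i` is a
combination of sums over the rotations of cyclic words, on which the value is divisible by `p ^ 2`
(the top coefficient of `G(w)` is a multiple of `p` by exactness, and of `p ^ 2` if `w` is a `p`-th
power). It vanishes on `L_4`, because `G` kills `L_3`. With `M = x_1^{p-1} ⋯ x_p^{p-1}` and the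
product `C_i` of the commutators of the `x_j`, `j ≠ i`, the element `T' = ∑ ± [M C_i, x_i]` satisfies
`p T' ∈ [A, J]`, where `[A, J]` is a torsion group modulo `L_4`; the functional takes the value
`± 2^{(p-1)/2} p` at `T'`, and `2 (p - 1) T'` is congruent modulo `[A, J]` to an element of `L_3`.
-/

namespace Pool.Agent.Results.MP_464c58_al.EveryOddPrime

/-- The free associative unital ring `A_n(ℤ) = ℤ⟨x_1, …, x_n⟩`. -/
abbrev A (n : ℕ) : Type := FreeAlgebra ℤ (Fin n)

/-- Its lower central series: `L_1 = A_n(ℤ)` and `L_{k+1}` is the additive subgroup generated by all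
`a b - b a` with `a` in `A_n(ℤ)` and `b` in `L_k`. (The value at `0`, which is not used, is also
everything.) -/
def L (n : ℕ) : ℕ → AddSubgroup (A n)
  | 0 => ⊤
  | 1 => ⊤
  | k + 2 => AddSubgroup.closure {x | ∃ a b, b ∈ L n (k + 1) ∧ x = a * b - b * a}

/-- The quotient `B_l(A_n(ℤ)) = L_l / L_{l+1}`. -/
abbrev B (n l : ℕ) : Type := L n l ⧸ (L n (l + 1)).addSubgroupOf (L n l)

theorem L_eq (n : ℕ) : ∀ k, L n (k + 1) = N36.LC.L (A n) (k + 1)
  | 0 => rfl
  | k + 1 => by
    show AddSubgroup.closure _ = AddSubgroup.closure _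
    rw [L_eq n k]

theorem L_map {A B : Type} [Ring A] [Ring B] (f : A →+* B) : ∀ (k : ℕ) (x : A),
    x ∈ N36.LC.L A (k + 1) → f x ∈ N36.LC.L B (k + 1)
  | 0, _, _ => AddSubgroup.mem_top _
  | k + 1, x, hx => by
    have h : N36.LC.L A (k + 2) ≤ (N36.LC.L B (k + 2)).comap f.toAddMonoidHom := by
      show AddSubgroup.closure _ ≤ _
      rw [AddSubgroup.closure_le]
      rintro _ ⟨a, b, hb, rfl⟩
      refine AddSubgroup.subset_closure ⟨f a, f b, L_map f k b hb, ?_⟩
      show f _ = _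
      rw [map_sub, map_mul, map_mul]
    exact h hx

theorem exists_order {p n : ℕ} (hp : p.Prime) (hp2 : p ≠ 2) (hn : p ≤ n) :
    ∃ T : B n 3, addOrderOf T = p := by
  obtain ⟨T, hT, ⟨N, hN, hN'⟩, hc⟩ := N36.LC.exists_T hp hp2
  -- embed `A_p` in `A_n`
  let s : A p →ₐ[ℤ] A n := FreeAlgebra.lift ℤ fun i => FreeAlgebra.ι ℤ (Fin.castLE hn i)
  let r : A n →ₐ[ℤ] A p := FreeAlgebra.lift ℤ fun i =>
    if h : (i : ℕ) < p then FreeAlgebra.ι ℤ ⟨i, h⟩ else 0
  have hrs : ∀ x, r (s x) = x := by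
    have h : r.comp s = AlgHom.id ℤ (A p) := by
      apply FreeAlgebra.hom_ext
      funext i
      simp [r, s]
    intro x
    exact DFunLike.congr_fun h x
  have h3 : s T ∈ L n 3 := by
    rw [L_eq n 2]
    exact L_map s.toRingHom 2 T hT
  let τ : B n 3 := QuotientAddGroup.mk ⟨s T, h3⟩
  have hzero : ∀ k : ℕ, k • τ = 0 ↔ k • T ∈ N36.LC.L (A p) 4 := by
    intro k
    have e : k • τ = QuotientAddGroup.mk (k • (⟨s T, h3⟩ : L n 3)) := rfl
    rw [e, QuotientAddGroup.eq_zero_iff, AddSubgroup.mem_addSubgroupOf, L_eq n 3]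
    show k • s T ∈ _ ↔ _
    rw [← map_nsmul]
    constructor
    · intro h
      have := L_map r.toRingHom 3 _ h
      have e2 : r.toRingHom (s (k • T)) = k • T := hrs _
      rwa [e2] at this
    · intro h
      exact L_map s.toRingHom 3 _ h
  have ho : 0 < addOrderOf τ := by
    rw [addOrderOf_pos_iff, isOfFinAddOrder_iff_nsmul_eq_zero]
    exact ⟨N, hN, (hzero N).2 hN'⟩
  have hd : p ∣ addOrderOf τ := by
    by_contra h
    exact hc _ ((hp.coprime_iff_not_dvd.2 h).symm) ((hzero _).1 (addOrderOf_nsmul_eq_zero τ))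
  obtain ⟨q, hq⟩ := hd
  have hq0 : 0 < q := by
    rcases Nat.eq_zero_or_pos q with h | h
    · rw [h, mul_zero] at hq
      omega
    · exact h
  refine ⟨q • τ, ?_⟩
  rw [addOrderOf_nsmul_of_dvd hq0.ne' ⟨p, by rw [hq]; ring⟩, hq, Nat.mul_div_cancel _ hq0]

/-- **Theorem.** For every odd prime `p` and every `n ≥ p` the group `B_3(A_n(ℤ))` has an element
of order `p`. In particular the set of the primes `p` for which there are `l ≥ 3` and `n ≥ 2` such
that `B_l(A_n(ℤ))` has `p`-torsion is infinite. -/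
theorem result :
    (∀ p n : ℕ, p.Prime → p ≠ 2 → p ≤ n → ∃ T : B n 3, addOrderOf T = p) ∧
    {p : ℕ | p.Prime ∧ ∃ l n : ℕ, 3 ≤ l ∧ 2 ≤ n ∧ ∃ T : B n l, addOrderOf T = p}.Infinite := by
  refine ⟨fun p n hp hp2 hn => exists_order hp hp2 hn, ?_⟩
  refine (Nat.infinite_setOf_prime.diff (Set.finite_singleton 2)).mono ?_
  rintro p ⟨hp, hp2⟩
  exact ⟨hp, 3, p, le_rfl, hp.two_le, exists_order hp hp2 le_rfl⟩

end Pool.Agent.Results.MP_464c58_al.EveryOddPrime
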